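import Mathlib

set_option autoImplicit false

namespace Pool.Agent.Results.MP_628392_al.NotSimilar

open Polynomial Quaternion

/-- `ℍ[u,v]` as polynomials in `v` over `ℍ[u]` -/
abbrev R : Type := ℍ[ℝ][X][X]

/-- similarity in the sense of Ore -/
def Similar (A B : R) : Prop := Nonempty ((R ⧸ Ideal.span {A}) ≃ₗ[R] (R ⧸ Ideal.span {B}))

lemma dv (b : ℍ[ℝ][X]) (g : R) : ∃ g' g0, g = g' * (X + C b) + C g0 := by
  induction g using Polynomial.induction_on with
  | C a => exact ⟨0, a, by simp⟩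
  | add p q hp hq =>
    obtain ⟨p', p0, rfl⟩ := hp
    obtain ⟨q', q0, rfl⟩ := hq
    exact ⟨p' + q', p0 + q0, by rw [add_mul, C_add]; abel⟩
  | monomial n a h =>
    obtain ⟨p', p0, h⟩ := h
    refine ⟨X * p' + C p0, -(p0 * b), ?_⟩
    rw [pow_succ, ← mul_assoc, h, ← X_mul, C_neg, C_mul, mul_add X, X_mul (p := C p0)]
    noncomm_ring

lemma zero_of (b x : ℍ[ℝ][X]) (h : C x ∈ Ideal.span {(X + C b : R)}) : x = 0 := by
  obtain ⟨g, hg⟩ := Ideal.mem_span_singleton'.1 h
  by_cases h0 : g = 0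
  · rw [h0, zero_mul] at hg; exact C_eq_zero.1 hg.symm
  have := congrArg natDegree hg
  rw [natDegree_mul h0 (monic_X_add_C b).ne_zero, natDegree_X_add_C, natDegree_C] at this
  omega

lemma unit (x y : ℍ[ℝ][X]) (h : x * y = 1) : IsUnit x ∧ IsUnit y := by
  have hy : y ≠ 0 := by rintro rfl; simp at h
  have : y * x = 1 := mul_right_cancel₀ hy (by rw [mul_assoc, h, mul_one, one_mul])
  exact ⟨⟨⟨x, y, h, this⟩, rfl⟩, ⟨⟨y, x, this, h⟩, rfl⟩⟩

lemma irr (b : ℍ[ℝ][X]) : Irreducible (X + C b : R) := by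
  refine ⟨fun h => by simpa using natDegree_eq_zero_of_isUnit h, fun p q h => ?_⟩
  have h0 := (monic_X_add_C b).ne_zero
  rw [h] at h0
  have h1 := congrArg natDegree h
  have h2 := congrArg leadingCoeff h
  rw [natDegree_mul (left_ne_zero_of_mul h0) (right_ne_zero_of_mul h0), natDegree_X_add_C] at h1
  rw [leadingCoeff_mul, (monic_X_add_C b).leadingCoeff] at h2
  have h3 := unit _ _ h2.symm
  rcases (by omega : p.natDegree = 0 ∨ q.natDegree = 0) with k | k
  · left; rw [eq_C_of_natDegree_eq_zero k]; rw [leadingCoeff, k] at h3; exact h3.1.map C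
  · right; rw [eq_C_of_natDegree_eq_zero k]; rw [leadingCoeff, leadingCoeff, k] at h3
    exact h3.2.map C

lemma nsim (a b : ℍ[ℝ][X]) (ha : a.coeff 1 = 0) (hb : b.coeff 1 ≠ 0) :
    ¬ Similar (X + C a) (X + C b) := by
  rintro ⟨φ⟩
  obtain ⟨r', hr⟩ := Submodule.Quotient.mk_surjective _ (φ (Submodule.Quotient.mk 1))
  obtain ⟨r1, r, rfl⟩ := dv b r'
  have hB : (X + C b : R) ∈ Ideal.span {(X + C b : R)} := Ideal.subset_span rfl
  have e : ∀ g : R, φ (Submodule.Quotient.mk g) = Submodule.Quotient.mk (g * C r) := by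
    intro g
    rw [← mul_one g, ← smul_eq_mul, Submodule.Quotient.mk_smul, map_smul, ← hr,
      ← Submodule.Quotient.mk_smul, Submodule.Quotient.eq, smul_eq_mul, smul_eq_mul, mul_one,
      mul_add, add_sub_cancel_right]
    exact Ideal.mul_mem_left _ _ (Ideal.mul_mem_left _ _ hB)
  have h1 : (X + C a) * C r ∈ Ideal.span {(X + C b : R)} := by
    rw [← Submodule.Quotient.mk_eq_zero, ← e, (Submodule.Quotient.mk_eq_zero _).2
      (Ideal.mem_span_singleton_self _), map_zero]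
  have h2 : a * r - r * b = 0 := zero_of b _ (by
    convert Ideal.sub_mem _ h1 (Ideal.mul_mem_left _ (C r) hB) using 1
    rw [C_sub, C_mul, C_mul, add_mul, X_mul, mul_add]; abel)
  obtain ⟨g, hg⟩ := φ.surjective (Submodule.Quotient.mk 1)
  obtain ⟨g, rfl⟩ := Submodule.Quotient.mk_surjective _ g
  obtain ⟨g1, g0, rfl⟩ := dv a g
  rw [e, Submodule.Quotient.eq] at hg
  have h3 : g0 * r - 1 = 0 := zero_of b _ (by
    convert Ideal.sub_mem _ hg (Ideal.mul_mem_left _ g1 h1) using 1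
    rw [C_sub, C_mul, C_1, add_mul, mul_assoc]; abel)
  have h4 := (unit _ _ (sub_eq_zero.1 h3)).2
  have h5 := congrArg (coeff · 1) h2
  obtain ⟨c, rfl⟩ := natDegree_eq_zero.1 (natDegree_eq_zero_of_isUnit h4)
  simp only [coeff_sub, coeff_mul_C, coeff_C_mul, ha, zero_mul, zero_sub, coeff_zero,
    neg_eq_zero, mul_eq_zero, hb, or_false] at h5
  rw [h5, C_0] at h4
  exact not_isUnit_zero h4

lemma sq {S : Type} [Ring S] (c : S) : (X + C c) * (X + C (-c)) = X * X - C (c * c) := by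
  rw [C_neg, C_mul, add_mul, mul_add, mul_add, mul_neg, mul_neg, X_mul (p := C c)]; abel

lemma pr {S : Type} [Ring S] (x y : S) : (List.ofFn ![x, y]).prod = x * y := by simp

lemma sqs {S : Type} [Ring S] (p q r s : S) (h1 : p * r + r * p = 0) (h2 : r * s + s * r = 0)
    (h3 : p * s + s * p + r * r = p * q + q * p) (h4 : s * s = q * q) :
    (monomial 2 p + monomial 0 q) * (monomial 2 p + monomial 0 q)
      = (monomial 2 p + monomial 1 r + monomial 0 s)
        * (monomial 2 p + monomial 1 r + monomial 0 s) := by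
  have : (monomial 2 p + monomial 1 r + monomial 0 s) * (monomial 2 p + monomial 1 r + monomial 0 s)
      = monomial 4 (p * p) + monomial 3 (p * r + r * p) + monomial 2 (p * s + s * p + r * r)
        + monomial 1 (r * s + s * r) + monomial 0 (s * s) := by
    simp only [add_mul, mul_add, monomial_mul_monomial, map_add]; abel
  rw [this, h1, h2, h3, h4]
  simp only [add_mul, mul_add, monomial_mul_monomial, map_add, map_zero]; abel

theorem result : ¬ ∀ (m n : ℕ) (A : Fin m → R) (B : Fin n → R),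
    (∀ i, Irreducible (A i) ∧ (A i).natDegree ≤ 1) →
    (∀ i, Irreducible (B i) ∧ (B i).natDegree ≤ 1) →
    (List.ofFn A).prod = (List.ofFn B).prod → (List.ofFn A).prod ≠ 0 →
    ∃ σ : Fin m ≃ Fin n, ∀ i, Similar (A i) (B (σ i)) := by
  intro H
  set a : ℍ[ℝ][X] := monomial 2 ⟨0, 1, 0, 0⟩ + monomial 0 ⟨0, 2, 0, 0⟩ with ha
  set b : ℍ[ℝ][X] := monomial 2 ⟨0, 1, 0, 0⟩ + monomial 1 ⟨0, 0, 2, 0⟩ + monomial 0 ⟨0, 0, 0, 2⟩
    with hb
  have hab : a * a = b * b := sqs _ _ _ _ (by ext <;> simp) (by ext <;> simp)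
    (by ext <;> simp <;> norm_num) (by ext <;> simp)
  have ok : ∀ c : ℍ[ℝ][X], ∀ i, Irreducible ((![X + C c, X + C (-c)] : Fin 2 → R) i) ∧
      ((![X + C c, X + C (-c)] : Fin 2 → R) i).natDegree ≤ 1 := fun c i => by
    fin_cases i <;> exact ⟨irr _, (natDegree_X_add_C _).le⟩
  obtain ⟨σ, h⟩ := H 2 2 _ _ (ok a) (ok b) (by rw [pr, pr, sq, sq, hab])
    (by rw [pr]; exact mul_ne_zero (monic_X_add_C _).ne_zero (monic_X_add_C _).ne_zero)
  have h0 := h 0
  have c1 : a.coeff 1 = 0 := by simp [ha, coeff_monomial]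
  have c2 : b.coeff 1 ≠ 0 := by simp [hb, coeff_monomial, Quaternion.ext_iff]
  generalize σ 0 = j at h0
  fin_cases j
  · exact nsim a b c1 c2 h0
  · exact nsim a (-b) c1 (by simpa using c2) h0

end Pool.Agent.Results.MP_628392_al.NotSimilar
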